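import Pool.Agent.Helper74.HG.GoalsC

/-! # HG-ZPK: the number of arcs of a product in separate variables -/

set_option autoImplicit false

namespace Pool.Agent.Helper71.HG.ZPK

open MvPolynomial Pool.Agent.Helper74.HG

open scoped Classical

theorem finite_Tr (K : Type) [Field K] [Finite K] (m : ℕ) : Finite (Tr K m) := by
  have h : ((Polynomial.X : Polynomial K) ^ (m + 1)) ≠ 0 := pow_ne_zero _ Polynomial.X_ne_zero
  haveI : Module.Finite K (AdjoinRoot ((Polynomial.X : Polynomial K) ^ (m + 1))) :=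
    (AdjoinRoot.powerBasis h).finite
  exact Module.finite_of_finite K (M := AdjoinRoot ((Polynomial.X : Polynomial K) ^ (m + 1)))

theorem mk_eq_zero (K : Type) [Field K] (m : ℕ) (p : Polynomial K) :
    (Ideal.Quotient.mk (Ideal.span {(Polynomial.X : Polynomial K) ^ (m + 1)}) p : Tr K m) = 0 ↔
      Polynomial.X ^ (m + 1) ∣ p := by
  rw [Ideal.Quotient.eq_zero_iff_mem, Ideal.mem_span_singleton]

theorem dvd_iff (K : Type) [Field K] (n : ℕ) (p : Polynomial K) (hp : p ≠ 0) :
    Polynomial.X ^ n ∣ p ↔ n ≤ p.natTrailingDegree := by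
  rw [Polynomial.X_pow_dvd_iff]
  constructor
  · intro h
    exact Polynomial.le_natTrailingDegree hp h
  · intro h d hd
    exact Polynomial.coeff_eq_zero_of_lt_natTrailingDegree (lt_of_lt_of_le hd h)

/-- the order -/
theorem ord_iff (K : Type) [Field K] (m a : ℕ) (ha : a ≤ m) (p : Polynomial K) :
    (tt K m ^ (m - a + 1) *
        (Ideal.Quotient.mk (Ideal.span {(Polynomial.X : Polynomial K) ^ (m + 1)}) p : Tr K m) = 0 ∧
      tt K m ^ (m - a) *
        (Ideal.Quotient.mk (Ideal.span {(Polynomial.X : Polynomial K) ^ (m + 1)}) p : Tr K m) ≠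
          0) ↔
      p ≠ 0 ∧ p.natTrailingDegree = a := by
  have hX : ∀ a : ℕ, (Polynomial.X : Polynomial K) ^ a ≠ 0 :=
    fun a => pow_ne_zero _ Polynomial.X_ne_zero
  rw [tt, ← map_pow, ← map_pow, ← map_mul, ← map_mul, Ne, mk_eq_zero, mk_eq_zero]
  have e1 : (Polynomial.X : Polynomial K) ^ (m + 1) ∣ Polynomial.X ^ (m - a + 1) * p ↔
      Polynomial.X ^ a ∣ p := by
    rw [show (Polynomial.X : Polynomial K) ^ (m + 1) =
      Polynomial.X ^ (m - a + 1) * Polynomial.X ^ a by rw [← pow_add]; congr 1; omega,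
      mul_dvd_mul_iff_left (hX _)]
  have e2 : (Polynomial.X : Polynomial K) ^ (m + 1) ∣ Polynomial.X ^ (m - a) * p ↔
      Polynomial.X ^ (a + 1) ∣ p := by
    rw [show (Polynomial.X : Polynomial K) ^ (m + 1) =
      Polynomial.X ^ (m - a) * Polynomial.X ^ (a + 1) by rw [← pow_add]; congr 1; omega,
      mul_dvd_mul_iff_left (hX _)]
  rw [e1, e2]
  constructor
  · rintro ⟨h1, h2⟩
    have hp : p ≠ 0 := by
      rintro rfl
      exact h2 (dvd_zero _)
    rw [dvd_iff K _ p hp] at h1 h2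
    exact ⟨hp, by omega⟩
  · rintro ⟨hp, h⟩
    rw [dvd_iff K _ p hp, dvd_iff K _ p hp]
    omega

theorem ord_m (K : Type) [Field K] (m : ℕ) (p : Polynomial K) :
    (tt K m *
        (Ideal.Quotient.mk (Ideal.span {(Polynomial.X : Polynomial K) ^ (m + 1)}) p : Tr K m) = 0 ∧
      (Ideal.Quotient.mk (Ideal.span {(Polynomial.X : Polynomial K) ^ (m + 1)}) p : Tr K m) ≠
          0) ↔
      p ≠ 0 ∧ p.natTrailingDegree = m := by
  have h := ord_iff K m m le_rfl p
  rw [Nat.sub_self, zero_add, pow_one, pow_zero, one_mul] at h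
  exact h

/-- the order of a product -/
theorem ord_mul (K : Type) [Field K] (m : ℕ) (u v : Tr K m) :
    (tt K m * (u * v) = 0 ∧ u * v ≠ 0) ↔
      ∃ p ∈ Finset.HasAntidiagonal.antidiagonal m,
        (tt K m ^ (m - p.1 + 1) * u = 0 ∧ tt K m ^ (m - p.1) * u ≠ 0) ∧
        (tt K m ^ (m - p.2 + 1) * v = 0 ∧ tt K m ^ (m - p.2) * v ≠ 0) := by
  obtain ⟨P, rfl⟩ := Ideal.Quotient.mk_surjective u
  obtain ⟨Q, rfl⟩ := Ideal.Quotient.mk_surjective v
  rw [← map_mul, ord_m]
  constructor
  · rintro ⟨h1, h2⟩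
    have hP : P ≠ 0 := left_ne_zero_of_mul h1
    have hQ : Q ≠ 0 := right_ne_zero_of_mul h1
    rw [Polynomial.natTrailingDegree_mul hP hQ] at h2
    refine ⟨(P.natTrailingDegree, Q.natTrailingDegree), Finset.HasAntidiagonal.mem_antidiagonal.2 h2, ?_, ?_⟩
    · exact (ord_iff K m _ (by omega) P).2 ⟨hP, rfl⟩
    · exact (ord_iff K m _ (by omega) Q).2 ⟨hQ, rfl⟩
  · rintro ⟨⟨a, b⟩, hab, h1, h2⟩
    have hab' : a + b = m := Finset.HasAntidiagonal.mem_antidiagonal.1 hab
    obtain ⟨hP, h3⟩ := (ord_iff K m a (by omega) P).1 h1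
    obtain ⟨hQ, h4⟩ := (ord_iff K m b (by omega) Q).1 h2
    refine ⟨mul_ne_zero hP hQ, ?_⟩
    rw [Polynomial.natTrailingDegree_mul hP hQ, h3, h4, hab']

theorem ord_unique (K : Type) [Field K] (m a a' : ℕ) (ha : a ≤ m) (ha' : a' ≤ m) (u : Tr K m)
    (h : tt K m ^ (m - a + 1) * u = 0 ∧ tt K m ^ (m - a) * u ≠ 0)
    (h' : tt K m ^ (m - a' + 1) * u = 0 ∧ tt K m ^ (m - a') * u ≠ 0) : a = a' := by
  obtain ⟨P, rfl⟩ := Ideal.Quotient.mk_surjective u
  rw [← ((ord_iff K m a ha P).1 h).2, ← ((ord_iff K m a' ha' P).1 h').2]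

theorem cnt_mul (hl : LIK) (K : Type) [Field K] [Finite K] {σ τ : Type} [Fintype σ] [Fintype τ]
    (f : MvPolynomial σ K) (g : MvPolynomial τ K) (m : ℕ) :
    cntK K (rename Sum.inl f * rename Sum.inr g) m =
      ∑ p ∈ Finset.HasAntidiagonal.antidiagonal m,
        (Nat.card K ^ (Fintype.card σ * (m - p.1)) * cntK K f p.1) *
        (Nat.card K ^ (Fintype.card τ * (m - p.2)) * cntK K g p.2) := by
  haveI := finite_Tr K m
  have h1 : (Equiv.sumArrowEquivProdArrow σ τ (Tr K m)) ''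
      (JetK K (rename Sum.inl f * rename Sum.inr g) m) =
      (((Finset.HasAntidiagonal.antidiagonal m).biUnion fun p =>
        (Set.toFinite (JetKO K f m p.1)).toFinset ×ˢ
        (Set.toFinite (JetKO K g m p.2)).toFinset : Finset _) : Set _) := by
    ext ⟨x, y⟩
    simp only [Set.mem_image, Finset.coe_biUnion, Set.mem_iUnion, Finset.mem_coe,
      Finset.mem_product, Set.Finite.mem_toFinset, exists_prop]
    constructor
    · rintro ⟨z, ⟨hz1, hz2⟩, hzx⟩
      have hx : (fun i => z (Sum.inl i)) = x := congrArg Prod.fst hzx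
      have hy : (fun i => z (Sum.inr i)) = y := congrArg Prod.snd hzx
      have he : aeval z (rename Sum.inl f * rename Sum.inr g) = aeval x f * aeval y g := by
        rw [map_mul, aeval_rename, aeval_rename, ← hx, ← hy]
        rfl
      rw [he, ord_mul] at hz2
      obtain ⟨p, hp, h2, h3⟩ := hz2
      refine ⟨p, hp, ⟨?_, h2⟩, ⟨?_, h3⟩⟩
      · intro i
        rw [← hx]
        exact hz1 (Sum.inl i)
      · intro i
        rw [← hy]
        exact hz1 (Sum.inr i)
    · rintro ⟨p, hp, ⟨hx, h2⟩, ⟨hy, h3⟩⟩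
      have he : aeval (Sum.elim x y) (rename Sum.inl f * rename Sum.inr g) =
          aeval x f * aeval y g := by
        rw [map_mul, aeval_rename, aeval_rename, Sum.elim_comp_inl, Sum.elim_comp_inr]
      refine ⟨Sum.elim x y, ⟨?_, ?_⟩, rfl⟩
      · rintro (i | i)
        · exact hx i
        · exact hy i
      · rw [he]
        exact (ord_mul K m _ _).2 ⟨p, hp, h2, h3⟩
  have h2 := congrArg Set.ncard h1
  rw [Set.ncard_image_of_injective _ (Equiv.injective _), Set.ncard_coe_finset,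
    Finset.card_biUnion] at h2
  · unfold cntK at *
    rw [h2]
    refine Finset.sum_congr rfl fun p hp => ?_
    have hp' : p.1 + p.2 = m := Finset.HasAntidiagonal.mem_antidiagonal.1 hp
    rw [Finset.card_product, ← Set.ncard_eq_toFinset_card, ← Set.ncard_eq_toFinset_card]
    have e1 := (hl K σ).2 f m p.1 (by omega)
    have e2 := (hl K τ).2 g m p.2 (by omega)
    unfold cntK at e1 e2
    rw [e1, e2]
  · intro p hp p' hp' hne
    have hp1 : p.1 + p.2 = m := Finset.HasAntidiagonal.mem_antidiagonal.1 (Finset.mem_coe.1 hp)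
    have hp2 : p'.1 + p'.2 = m := Finset.HasAntidiagonal.mem_antidiagonal.1 (Finset.mem_coe.1 hp')
    rw [Function.onFun, Finset.disjoint_left]
    rintro ⟨x, y⟩ h3 h4
    simp only [Finset.mem_product, Set.Finite.mem_toFinset] at h3 h4
    apply hne
    have h5 := ord_unique K m p.1 p'.1 (by omega) (by omega) _ h3.1.2 h4.1.2
    exact Prod.ext h5 (by omega)

theorem t (hl : LIK) : Pool.Agent.Helper74.HG.ZPK := by
  intro K _ _ σ τ _ _ f g m
  rw [cnt_mul hl K f g m]
  have hq : (Nat.card K : ℂ) ≠ 0 := by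
    exact_mod_cast (Nat.card_pos (α := K)).ne'
  push_cast
  rw [Finset.sum_div]
  refine Finset.sum_congr rfl fun p hp => ?_
  obtain ⟨a, b⟩ := p
  have hp' : a + b = m := Finset.HasAntidiagonal.mem_antidiagonal.1 hp
  subst hp'
  simp only [Nat.add_sub_cancel_left, Nat.add_sub_cancel_right, Fintype.card_sum]
  rw [show (Fintype.card σ + Fintype.card τ) * (a + b) =
    Fintype.card σ * a + Fintype.card σ * b + (Fintype.card τ * a + Fintype.card τ * b) by ring,
    pow_add, pow_add, pow_add]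
  field_simp

end Pool.Agent.Helper71.HG.ZPK
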