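import Pool.Agent.Helper74.HG.GoalsG
import Pool.Agent.Helper71.HG.ZPK

/-! # HG-ZPKG: the number of arcs of a product in separate variables, all arcs -/

set_option autoImplicit false

namespace Pool.Agent.Helper71.HG.ZPKG

open MvPolynomial Pool.Agent.Helper74.HG

open scoped Classical

theorem cnt_mul (hl : LIKG) (K : Type) [Field K] [Finite K] {σ τ : Type} [Fintype σ] [Fintype τ]
    (f : MvPolynomial σ K) (g : MvPolynomial τ K) (m : ℕ) :
    cntG K (rename Sum.inl f * rename Sum.inr g) m =
      ∑ p ∈ Finset.HasAntidiagonal.antidiagonal m,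
        (Nat.card K ^ (Fintype.card σ * (m - p.1)) * cntG K f p.1) *
        (Nat.card K ^ (Fintype.card τ * (m - p.2)) * cntG K g p.2) := by
  haveI := ZPK.finite_Tr K m
  have h1 : (Equiv.sumArrowEquivProdArrow σ τ (Tr K m)) ''
      (JetG K (rename Sum.inl f * rename Sum.inr g) m) =
      (((Finset.HasAntidiagonal.antidiagonal m).biUnion fun p =>
        (Set.toFinite (JetGO K f m p.1)).toFinset ×ˢ
        (Set.toFinite (JetGO K g m p.2)).toFinset : Finset _) : Set _) := by
    ext ⟨x, y⟩
    simp only [Set.mem_image, Finset.coe_biUnion, Set.mem_iUnion, Finset.mem_coe,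
      Finset.mem_product, Set.Finite.mem_toFinset, exists_prop]
    constructor
    · rintro ⟨z, hz2, hzx⟩
      have hx : (fun i => z (Sum.inl i)) = x := congrArg Prod.fst hzx
      have hy : (fun i => z (Sum.inr i)) = y := congrArg Prod.snd hzx
      have he : aeval z (rename Sum.inl f * rename Sum.inr g) = aeval x f * aeval y g := by
        rw [map_mul, aeval_rename, aeval_rename, ← hx, ← hy]
        rfl
      change tt K m * aeval z _ = 0 ∧ aeval z _ ≠ 0 at hz2
      rw [he, ZPK.ord_mul] at hz2
      obtain ⟨p, hp, h2, h3⟩ := hz2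
      exact ⟨p, hp, h2, h3⟩
    · rintro ⟨p, hp, h2, h3⟩
      have he : aeval (Sum.elim x y) (rename Sum.inl f * rename Sum.inr g) =
          aeval x f * aeval y g := by
        rw [map_mul, aeval_rename, aeval_rename, Sum.elim_comp_inl, Sum.elim_comp_inr]
      refine ⟨Sum.elim x y, ?_, rfl⟩
      change tt K m * aeval _ _ = 0 ∧ aeval _ _ ≠ 0
      rw [he]
      exact (ZPK.ord_mul K m _ _).2 ⟨p, hp, h2, h3⟩
  have h2 := congrArg Set.ncard h1
  rw [Set.ncard_image_of_injective _ (Equiv.injective _), Set.ncard_coe_finset,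
    Finset.card_biUnion] at h2
  · unfold cntG at *
    rw [h2]
    refine Finset.sum_congr rfl fun p hp => ?_
    have hp' : p.1 + p.2 = m := Finset.HasAntidiagonal.mem_antidiagonal.1 hp
    rw [Finset.card_product, ← Set.ncard_eq_toFinset_card, ← Set.ncard_eq_toFinset_card]
    have e1 := (hl K σ).2 f m p.1 (by omega)
    have e2 := (hl K τ).2 g m p.2 (by omega)
    unfold cntG at e1 e2
    rw [e1, e2]
  · intro p hp p' hp' hne
    have hp1 : p.1 + p.2 = m := Finset.HasAntidiagonal.mem_antidiagonal.1 (Finset.mem_coe.1 hp)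
    have hp2 : p'.1 + p'.2 = m := Finset.HasAntidiagonal.mem_antidiagonal.1 (Finset.mem_coe.1 hp')
    rw [Function.onFun, Finset.disjoint_left]
    rintro ⟨x, y⟩ h3 h4
    simp only [Finset.mem_product, Set.Finite.mem_toFinset] at h3 h4
    apply hne
    have h5 := ZPK.ord_unique K m p.1 p'.1 (by omega) (by omega) _ h3.1 h4.1
    exact Prod.ext h5 (by omega)

theorem t (hl : LIKG) : Pool.Agent.Helper74.HG.ZPKG := by
  intro K _ _ σ τ _ _ f g m
  rw [cnt_mul hl K f g m]
  have hq : (Nat.card K : ℂ) ≠ 0 := by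
    exact_mod_cast (Nat.card_pos (α := K)).ne'
  push_cast
  rw [Finset.sum_div]
  refine Finset.sum_congr rfl fun p hp => ?_
  obtain ⟨a, b⟩ := p
  have hp' : a + b = m := Finset.HasAntidiagonal.mem_antidiagonal.1 hp
  subst hp'
  simp only [Nat.add_sub_cancel_left, Nat.add_sub_cancel_right, Fintype.card_sum]
  rw [show (Fintype.card σ + Fintype.card τ) * (a + b) =
    Fintype.card σ * a + Fintype.card σ * b + (Fintype.card τ * a + Fintype.card τ * b) by ring,
    pow_add, pow_add, pow_add]
  field_simp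

end Pool.Agent.Helper71.HG.ZPKG
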